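import Mathlib

/-!
For every maximal filter `F` on the set of subspaces of an infinite-dimensional vector space `V`,
the action of `GL(V)` on the set of all translates of `F` is 2-transitive but not 3-transitive: a
triple of translates `(F, F g, F h)` can be independent (some members `X, Y, Z` satisfy
`X ∩ (Y + Z) = 0`) or dependent (`X ∩ (Y + Z) ≠ 0` for all members).
-/

set_option autoImplicit false

namespace Pool.Agent.Results.MP_5cf805_al.DegreeTwo

open Cardinal

universe u v

variable {K : Type u} {V : Type v} [Field K] [AddCommGroup V] [Module K V]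

/-- A filter on the set of subspaces of `V`. -/
structure IsFilter (F : Set (Submodule K V)) : Prop where
  top_mem : ⊤ ∈ F
  bot_notMem : ⊥ ∉ F
  mono : ∀ U W : Submodule K V, U ∈ F → U ≤ W → W ∈ F
  inf : ∀ U W : Submodule K V, U ∈ F → W ∈ F → U ⊓ W ∈ F

/-- A maximal filter on the set of subspaces of `V`. -/
def IsMaxFilter (F : Set (Submodule K V)) : Prop :=
  IsFilter F ∧ ∀ F' : Set (Submodule K V), IsFilter F' → F ⊆ F' → F' = F

/-- The translate `F g = {U g : U ∈ F}` of a set `F` of subspaces by `g ∈ GL(V)`; here `U g` is the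
image of `U` under `g`. -/
def translate (F : Set (Submodule K V)) (g : V ≃ₗ[K] V) : Set (Submodule K V) :=
  {W | ∃ U ∈ F, W = U.map (g : V →ₗ[K] V)}

/-- The set of all translates of `F`. -/
def orbit (F : Set (Submodule K V)) : Set (Set (Submodule K V)) :=
  {F' | ∃ g : V ≃ₗ[K] V, F' = translate F g}

/-- `GL(V)` acts `k`-transitively on the set of all translates of `F`: any ordered `k`-tuple of
pairwise distinct translates can be moved to any other by an element of `GL(V)`. -/
def IsKTransitive (F : Set (Submodule K V)) (k : ℕ) : Prop :=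
  ∀ x y : Fin k → Set (Submodule K V), (∀ i, x i ∈ orbit F) → (∀ i, y i ∈ orbit F) →
    Function.Injective x → Function.Injective y →
    ∃ g : V ≃ₗ[K] V, ∀ i, translate (x i) g = y i

theorem mem_translate {F : Set (Submodule K V)} {g : V ≃ₗ[K] V} {W : Submodule K V} :
    W ∈ translate F g ↔ W.map (g.symm : V →ₗ[K] V) ∈ F := by
  constructor
  · rintro ⟨U, hU, rfl⟩
    rw [← Submodule.map_comp]
    simpa using hU
  · intro h
    refine ⟨_, h, ?_⟩
    rw [← Submodule.map_comp]
    simp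

theorem map_mem {F : Set (Submodule K V)} {g : V ≃ₗ[K] V} {W : Submodule K V} (h : W ∈ F) :
    W.map (g : V →ₗ[K] V) ∈ translate F g := ⟨W, h, rfl⟩

theorem translate_trans (F : Set (Submodule K V)) (g h : V ≃ₗ[K] V) :
    translate (translate F g) h = translate F (g.trans h) := by
  ext W
  rw [mem_translate, mem_translate, mem_translate, ← Submodule.map_comp]
  rfl

theorem translate_refl (F : Set (Submodule K V)) :
    translate F (LinearEquiv.refl K V) = F := by
  ext W
  rw [mem_translate]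
  simp

theorem IsFilter.translate {F : Set (Submodule K V)} (hF : IsFilter F) (g : V ≃ₗ[K] V) :
    IsFilter (translate F g) where
  top_mem := by
    rw [mem_translate]
    simpa using hF.top_mem
  bot_notMem := by
    rw [mem_translate]
    simpa using hF.bot_notMem
  mono U W hU hUW := by
    rw [mem_translate] at *
    exact hF.mono _ _ hU (Submodule.map_mono hUW)
  inf U W hU hW := by
    rw [mem_translate] at *
    rw [Submodule.map_inf _ g.symm.injective]
    exact hF.inf _ _ hU hW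

theorem IsMaxFilter.translate {F : Set (Submodule K V)} (hF : IsMaxFilter F) (g : V ≃ₗ[K] V) :
    IsMaxFilter (translate F g) := by
  refine ⟨hF.1.translate g, fun F' hF' h => ?_⟩
  have h1 : F ⊆ DegreeTwo.translate F' g.symm := by
    intro U hU
    rw [mem_translate]
    exact h (map_mem hU)
  have h2 := hF.2 _ (hF'.translate g.symm) h1
  rw [← h2, translate_trans]
  simp [translate_refl]

/-- In a maximal filter, a subspace which is not a member has trivial intersection with some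
member. -/
theorem IsMaxFilter.exists_disjoint {F : Set (Submodule K V)} (hF : IsMaxFilter F)
    {U : Submodule K V} (hU : U ∉ F) : ∃ W ∈ F, W ⊓ U = ⊥ := by
  by_contra hcon
  push Not at hcon
  have h1 : IsFilter {X : Submodule K V | ∃ W ∈ F, W ⊓ U ≤ X} := by
    refine ⟨⟨⊤, hF.1.top_mem, le_top⟩, ?_, ?_, ?_⟩
    · rintro ⟨W, hW, h⟩
      exact hcon W hW (le_bot_iff.1 h)
    · rintro X Y ⟨W, hW, h⟩ hXY
      exact ⟨W, hW, h.trans hXY⟩
    · rintro X Y ⟨W, hW, h⟩ ⟨W', hW', h'⟩
      refine ⟨W ⊓ W', hF.1.inf _ _ hW hW', le_inf ?_ ?_⟩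
      · exact (inf_le_inf_right U inf_le_left).trans h
      · exact (inf_le_inf_right U inf_le_right).trans h'
  have h2 := hF.2 _ h1 (fun W hW => ⟨W, hW, inf_le_left⟩)
  apply hU
  rw [← h2]
  exact ⟨⊤, hF.1.top_mem, inf_le_right⟩

theorem IsMaxFilter.eq_of_subset {F F' : Set (Submodule K V)} (hF : IsMaxFilter F)
    (hF' : IsFilter F') (h : F ⊆ F') : F = F' := (hF.2 F' hF' h).symm

/-- Two different maximal filters have members with trivial intersection. -/
theorem exists_disjoint_of_ne {F F' : Set (Submodule K V)} (hF : IsMaxFilter F)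
    (hF' : IsMaxFilter F') (h : F ≠ F') : ∃ W ∈ F, ∃ U ∈ F', W ⊓ U = ⊥ := by
  have h1 : ¬ F' ⊆ F := fun h2 => h (hF'.eq_of_subset hF.1 h2).symm
  obtain ⟨U, hU, hU'⟩ := Set.not_subset.1 h1
  obtain ⟨W, hW, hWU⟩ := hF.exists_disjoint hU'
  exact ⟨W, hW, U, hU, hWU⟩

/-- A member `A` with `A ∩ A g = 0`. -/
theorem exists_disjoint_translate {F : Set (Submodule K V)} (hF : IsMaxFilter F) {g : V ≃ₗ[K] V}
    (h : translate F g ≠ F) : ∃ A ∈ F, A ⊓ A.map (g : V →ₗ[K] V) = ⊥ := by
  obtain ⟨W, hW, U, ⟨U', hU', rfl⟩, hWU⟩ := exists_disjoint_of_ne hF (hF.translate g) h.symm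
  refine ⟨W ⊓ U', hF.1.inf _ _ hW hU', le_bot_iff.1 ?_⟩
  rw [← hWU]
  exact inf_le_inf inf_le_left (Submodule.map_mono inf_le_right)

/-- A subspace of rank `κ ≥ ℵ₀` is the direct sum of two subspaces of rank `κ`. -/
theorem exists_split (A : Submodule K V) (hA : ℵ₀ ≤ Module.rank K A) :
    ∃ B C : Submodule K V, B ≤ A ∧ C ≤ A ∧ B ⊓ C = ⊥ ∧ Module.rank K B = Module.rank K A ∧
      Module.rank K C = Module.rank K A := by
  have h1 : Module.rank K A = Module.rank K (A × A) := by
    rw [rank_prod', Cardinal.add_eq_self hA]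
  obtain ⟨e⟩ := nonempty_linearEquiv_of_rank_eq h1
  let f : A →ₗ[K] V := A.subtype ∘ₗ e.symm.toLinearMap ∘ₗ LinearMap.inl K A A
  let g : A →ₗ[K] V := A.subtype ∘ₗ e.symm.toLinearMap ∘ₗ LinearMap.inr K A A
  have hf : Function.Injective f :=
    A.subtype_injective.comp (e.symm.injective.comp LinearMap.inl_injective)
  have hg : Function.Injective g :=
    A.subtype_injective.comp (e.symm.injective.comp LinearMap.inr_injective)
  refine ⟨LinearMap.range f, LinearMap.range g, ?_, ?_, ?_, ?_, ?_⟩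
  · rintro _ ⟨x, rfl⟩
    exact (e.symm (x, 0)).2
  · rintro _ ⟨x, rfl⟩
    exact (e.symm (0, x)).2
  · rw [Submodule.eq_bot_iff]
    rintro x ⟨⟨a, ha⟩, ⟨b, hb⟩⟩
    have h2 : e.symm (a, 0) = e.symm (0, b) := Subtype.ext (ha.trans hb.symm)
    have h3 := e.symm.injective h2
    simp only [Prod.mk.injEq] at h3
    rw [← ha, h3.1]
    simp
  · exact (LinearEquiv.ofInjective f hf).symm.rank_eq
  · exact (LinearEquiv.ofInjective g hg).symm.rank_eq

theorem exists_big_disjoint {F : Set (Submodule K V)} (hF : IsMaxFilter F)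
    (hV : ℵ₀ ≤ Module.rank K V) {g : V ≃ₗ[K] V} {A : Submodule K V} (hA : A ∈ F)
    (hg : A ⊓ A.map (g : V →ₗ[K] V) = ⊥) :
    ∃ A' ∈ F, A' ≤ A ∧ ∃ C : Submodule K V, C ⊓ (A' ⊔ A'.map (g : V →ₗ[K] V)) = ⊥ ∧
      Module.rank K C = Module.rank K V := by
  rcases (Submodule.rank_le A).lt_or_eq with hlt | heq
  · obtain ⟨C, hC⟩ := (A ⊔ A.map (g : V →ₗ[K] V)).exists_isCompl
    refine ⟨A, hA, le_rfl, C, ?_, ?_⟩
    · rw [inf_comm]
      exact hC.inf_eq_bot
    · have h1 : Module.rank K (A.map (g : V →ₗ[K] V)) < Module.rank K V := by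
        have := (g.submoduleMap A).rank_eq
        rw [← this]
        exact hlt
      have h2 : Module.rank K ↥(A ⊔ A.map (g : V →ₗ[K] V)) < Module.rank K V :=
        (Submodule.rank_add_le_rank_add_rank _ _).trans_lt (Cardinal.add_lt_of_lt hV hlt h1)
      have h3 := Submodule.rank_quotient_add_rank (A ⊔ A.map (g : V →ₗ[K] V))
      rw [(Submodule.quotientEquivOfIsCompl _ C hC).rank_eq, add_comm] at h3
      exact Cardinal.eq_of_add_eq_of_aleph0_le h3 h2 hV
  · have hA' : ℵ₀ ≤ Module.rank K A := heq ▸ hV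
    obtain ⟨B, C, hB, hC, hBC, hrB, hrC⟩ := exists_split A hA'
    have key : ∀ X Y : Submodule K V, X ≤ A → Y ≤ A → Y ⊓ X = ⊥ →
        Y ⊓ (X ⊔ X.map (g : V →ₗ[K] V)) = ⊥ := by
      intro X Y hX hY hXY
      rw [Submodule.eq_bot_iff]
      rintro y ⟨hy, hy'⟩
      obtain ⟨x, hx, z, hz, rfl⟩ := Submodule.mem_sup.1 hy'
      have h1 : z = 0 := by
        have h2 : z ∈ A ⊓ A.map (g : V →ₗ[K] V) := by
          refine ⟨?_, Submodule.map_mono hX hz⟩
          have := A.sub_mem (hY hy) (hX hx)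
          simpa using this
        rw [hg] at h2
        exact (Submodule.mem_bot K).1 h2
      subst h1
      have h3 : x + 0 ∈ Y ⊓ X := ⟨hy, by simpa using hx⟩
      rw [hXY] at h3
      exact (Submodule.mem_bot K).1 h3
    by_cases hBF : B ∈ F
    · refine ⟨B, hBF, hB, C, key B C hB hC ?_, hrC.trans heq⟩
      rw [inf_comm]
      exact hBC
    · obtain ⟨W, hW, hWB⟩ := hF.exists_disjoint hBF
      refine ⟨W ⊓ A, hF.1.inf _ _ hW hA, inf_le_right, B, key _ _ inf_le_right hB ?_,
        hrB.trans heq⟩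
      rw [eq_bot_iff, ← hWB]
      exact le_inf (inf_le_right.trans inf_le_left) inf_le_left

theorem rank_compl {N E D : Submodule K V} (hE : E ⊓ N = ⊥)
    (hrE : Module.rank K E = Module.rank K V) (hD : IsCompl N D) :
    Module.rank K D = Module.rank K V := by
  apply le_antisymm (Submodule.rank_le D)
  rw [← hrE, ← (Submodule.quotientEquivOfIsCompl N D hD).rank_eq]
  apply LinearMap.rank_le_of_injective (N.mkQ ∘ₗ E.subtype)
  rw [← LinearMap.ker_eq_bot, LinearMap.ker_eq_bot']
  intro x hx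
  have hx' : (x : V) ∈ N := by
    simpa using hx
  have : (x : V) ∈ E ⊓ N := ⟨x.2, hx'⟩
  rw [hE] at this
  exact Subtype.ext ((Submodule.mem_bot K).1 this)

/-- The linear map `(a, b, d) ↦ a + b g + d`. -/
def sumMap (A D : Submodule K V) (g : V ≃ₗ[K] V) : (A × A) × D →ₗ[K] V :=
  LinearMap.coprod (LinearMap.coprod A.subtype ((g : V →ₗ[K] V) ∘ₗ A.subtype)) D.subtype

theorem sumMap_apply (A D : Submodule K V) (g : V ≃ₗ[K] V) (a b : A) (d : D) :
    sumMap A D g ((a, b), d) = a + g b + d := rfl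

theorem sumMap_bijective {A D : Submodule K V} {g : V ≃ₗ[K] V}
    (hA : A ⊓ A.map (g : V →ₗ[K] V) = ⊥) (hD : IsCompl (A ⊔ A.map (g : V →ₗ[K] V)) D) :
    Function.Bijective (sumMap A D g) := by
  constructor
  · rw [← LinearMap.ker_eq_bot, LinearMap.ker_eq_bot']
    rintro ⟨⟨a, b⟩, d⟩ h
    rw [sumMap_apply] at h
    have h1 : (d : V) = 0 := by
      have h2 : (d : V) ∈ (A ⊔ A.map (g : V →ₗ[K] V)) ⊓ D := by
        refine ⟨?_, d.2⟩
        have h3 : (d : V) = -((a : V) + g b) := by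
          rw [eq_neg_iff_add_eq_zero, add_comm]
          exact h
        rw [h3]
        exact Submodule.neg_mem _ (Submodule.add_mem_sup a.2 ⟨b, b.2, rfl⟩)
      rw [hD.inf_eq_bot] at h2
      exact (Submodule.mem_bot K).1 h2
    rw [h1, add_zero] at h
    have h4 : (a : V) = 0 := by
      have h5 : (a : V) ∈ A ⊓ A.map (g : V →ₗ[K] V) := by
        refine ⟨a.2, -b, Submodule.neg_mem _ b.2, ?_⟩
        change g (-(b : V)) = a
        rw [map_neg, eq_comm, eq_neg_iff_add_eq_zero]
        exact h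
      rw [hA] at h5
      exact (Submodule.mem_bot K).1 h5
    rw [h4, zero_add] at h
    have h6 : (b : V) = 0 := by
      rw [← g.map_zero] at h
      exact g.injective h
    rw [Prod.mk_eq_zero, Prod.mk_eq_zero]
    exact ⟨⟨Subtype.ext h4, Subtype.ext h6⟩, Subtype.ext h1⟩
  · intro v
    have h1 : v ∈ (A ⊔ A.map (g : V →ₗ[K] V)) ⊔ D := by
      rw [hD.sup_eq_top]
      trivial
    obtain ⟨y, hy, d, hd, rfl⟩ := Submodule.mem_sup.1 h1
    obtain ⟨a, ha, _, ⟨b, hb, rfl⟩, rfl⟩ := Submodule.mem_sup.1 hy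
    exact ⟨((⟨a, ha⟩, ⟨b, hb⟩), ⟨d, hd⟩), rfl⟩

/-- The key step of `2`-transitivity. -/
theorem two_step {F : Set (Submodule K V)} (hF : IsMaxFilter F)
    (hV : ℵ₀ ≤ Module.rank K V) {g h : V ≃ₗ[K] V} (hg : translate F g ≠ F)
    (hh : translate F h ≠ F) :
    ∃ k : V ≃ₗ[K] V, translate F k = F ∧ translate (translate F g) k = translate F h := by
  obtain ⟨A₁, hA₁, h1⟩ := exists_disjoint_translate hF hg
  obtain ⟨A₂, hA₂, h2⟩ := exists_disjoint_translate hF hh
  have h12 := hF.1.inf _ _ hA₁ hA₂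
  have mono1 : ∀ {X Y : Submodule K V} {k : V ≃ₗ[K] V}, X ≤ Y →
      Y ⊓ Y.map (k : V →ₗ[K] V) = ⊥ → X ⊓ X.map (k : V →ₗ[K] V) = ⊥ := by
    intro X Y k hXY hY
    rw [eq_bot_iff, ← hY]
    exact inf_le_inf hXY (Submodule.map_mono hXY)
  obtain ⟨A₃, hA₃, h3, C, hC, hrC⟩ := exists_big_disjoint hF hV h12 (mono1 inf_le_left h1)
  obtain ⟨A, hA, h4, C', hC', hrC'⟩ := exists_big_disjoint hF hV hA₃
    (mono1 (h3.trans inf_le_right) h2)
  have hAg : A ⊓ A.map (g : V →ₗ[K] V) = ⊥ := mono1 (h4.trans (h3.trans inf_le_left)) h1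
  have hAh : A ⊓ A.map (h : V →ₗ[K] V) = ⊥ := mono1 (h4.trans (h3.trans inf_le_right)) h2
  obtain ⟨D, hD⟩ := (A ⊔ A.map (g : V →ₗ[K] V)).exists_isCompl
  obtain ⟨D', hD'⟩ := (A ⊔ A.map (h : V →ₗ[K] V)).exists_isCompl
  have hrD : Module.rank K D = Module.rank K V := by
    refine rank_compl ?_ hrC hD
    rw [eq_bot_iff, ← hC]
    exact inf_le_inf_left C (sup_le_sup h4 (Submodule.map_mono h4))
  have hrD' : Module.rank K D' = Module.rank K V := rank_compl hC' hrC' hD'
  obtain ⟨e⟩ := nonempty_linearEquiv_of_rank_eq (hrD.trans hrD'.symm)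
  let s : ((A × A) × D) ≃ₗ[K] V := LinearEquiv.ofBijective (sumMap A D g) (sumMap_bijective hAg hD)
  let s' : ((A × A) × D') ≃ₗ[K] V :=
    LinearEquiv.ofBijective (sumMap A D' h) (sumMap_bijective hAh hD')
  let k : V ≃ₗ[K] V := s.symm.trans (((LinearEquiv.refl K (A × A)).prodCongr e).trans s')
  have hk1 : ∀ a : A, k a = a := by
    intro a
    have hs : s ((a, 0), 0) = a := by
      change sumMap A D g ((a, 0), 0) = a
      rw [sumMap_apply]
      simp
    have : k (s ((a, 0), 0)) = s' ((a, 0), e 0) := by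
      simp [k]
    rw [hs] at this
    rw [this]
    change sumMap A D' h ((a, 0), e 0) = a
    rw [sumMap_apply]
    simp
  have hk2 : ∀ a : A, k (g a) = h a := by
    intro a
    have hs : s ((0, a), 0) = g a := by
      change sumMap A D g ((0, a), 0) = g a
      rw [sumMap_apply]
      simp
    have : k (s ((0, a), 0)) = s' ((0, a), e 0) := by
      simp [k]
    rw [hs] at this
    rw [this]
    change sumMap A D' h ((0, a), e 0) = h a
    rw [sumMap_apply]
    simp
  refine ⟨k, ?_, ?_⟩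
  · refine (hF.translate k).eq_of_subset hF.1 ?_
    rintro _ ⟨U, hU, rfl⟩
    refine hF.1.mono _ _ (hF.1.inf _ _ hU hA) ?_
    intro x hx
    exact ⟨x, hx.1, hk1 ⟨x, hx.2⟩⟩
  · refine ((hF.translate g).translate k).eq_of_subset (hF.translate h).1 ?_
    rintro _ ⟨_, ⟨U, hU, rfl⟩, rfl⟩
    refine (hF.translate h).1.mono _ _ (map_mem (hF.1.inf _ _ hU hA)) ?_
    rintro _ ⟨x, hx, rfl⟩
    exact ⟨g x, ⟨x, hx.1, rfl⟩, hk2 ⟨x, hx.2⟩⟩

theorem two_transitive {F : Set (Submodule K V)} (hF : IsMaxFilter F)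
    (hV : ℵ₀ ≤ Module.rank K V) : IsKTransitive F 2 := by
  intro x y hx hy hxi hyi
  obtain ⟨a, ha⟩ := hx 0
  obtain ⟨b, hb⟩ := hx 1
  obtain ⟨c, hc⟩ := hy 0
  obtain ⟨d, hd⟩ := hy 1
  have hne : x 0 ≠ x 1 := fun h => by
    have := hxi h
    simp at this
  have hne' : y 0 ≠ y 1 := fun h => by
    have := hyi h
    simp at this
  have h1 : translate F (b.trans a.symm) ≠ F := by
    intro h
    apply hne
    have h2 : translate (translate F (b.trans a.symm)) a = translate F a := by rw [h]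
    rw [translate_trans] at h2
    rw [ha, hb, ← h2]
    congr 1
    ext v
    simp
  have h1' : translate F (d.trans c.symm) ≠ F := by
    intro h
    apply hne'
    have h2 : translate (translate F (d.trans c.symm)) c = translate F c := by rw [h]
    rw [translate_trans] at h2
    rw [hc, hd, ← h2]
    congr 1
    ext v
    simp
  obtain ⟨k, hk1, hk2⟩ := two_step hF hV h1 h1'
  refine ⟨a.symm.trans (k.trans c), fun i => ?_⟩
  have e0 : translate (x 0) (a.symm.trans (k.trans c)) = y 0 := by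
    rw [ha, hc, translate_trans]
    have : a.trans (a.symm.trans (k.trans c)) = k.trans c := by
      ext v
      simp
    rw [this, ← translate_trans, hk1]
  have e1 : translate (x 1) (a.symm.trans (k.trans c)) = y 1 := by
    have h3 : translate (translate (translate F (b.trans a.symm)) k) c =
        translate (translate F (d.trans c.symm)) c := by rw [hk2]
    rw [translate_trans, translate_trans, translate_trans] at h3
    rw [hb, hd, translate_trans]
    have e3 : (d.trans c.symm).trans c = d := by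
      ext v
      simp
    rw [e3] at h3
    rw [← h3]
    congr 1
  fin_cases i
  · exact e0
  · exact e1

/-- Two injective linear maps into `V` with complements of full rank differ by an element of
`GL(V)`. -/
theorem exists_extend {X : Type v} [AddCommGroup X] [Module K X] {p q : X →ₗ[K] V}
    (hp : Function.Injective p) (hq : Function.Injective q) {E E' : Submodule K V}
    (hE : E ⊓ LinearMap.range p = ⊥) (hrE : Module.rank K E = Module.rank K V)
    (hE' : E' ⊓ LinearMap.range q = ⊥) (hrE' : Module.rank K E' = Module.rank K V) :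
    ∃ k : V ≃ₗ[K] V, ∀ x, k (p x) = q x := by
  obtain ⟨D, hD⟩ := (LinearMap.range p).exists_isCompl
  obtain ⟨D', hD'⟩ := (LinearMap.range q).exists_isCompl
  obtain ⟨e⟩ := nonempty_linearEquiv_of_rank_eq
    ((rank_compl hE hrE hD).trans (rank_compl hE' hrE' hD').symm)
  let s := Submodule.prodEquivOfIsCompl _ _ hD
  let s' := Submodule.prodEquivOfIsCompl _ _ hD'
  let c : LinearMap.range p ≃ₗ[K] LinearMap.range q :=
    (LinearEquiv.ofInjective p hp).symm.trans (LinearEquiv.ofInjective q hq)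
  let k : V ≃ₗ[K] V := s.symm.trans ((c.prodCongr e).trans s')
  refine ⟨k, fun x => ?_⟩
  have hs : s ((LinearEquiv.ofInjective p hp) x, 0) = p x := by
    simp [s]
  have h1 : k (s ((LinearEquiv.ofInjective p hp) x, 0)) = s' (LinearEquiv.ofInjective q hq x, 0) := by
    simp [k, c]
  rw [hs] at h1
  rw [h1]
  simp [s']

/-- A member `A` of `F` and a linear embedding of `A ⊕ A ⊕ A ⊕ ...` which extends the inclusion
of the first summand and has a complement of full rank. -/
theorem exists_copies {F : Set (Submodule K V)} (hF : IsMaxFilter F)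
    (hV : ℵ₀ ≤ Module.rank K V) : ∃ A ∈ F, ∃ P : (ℕ →₀ A) →ₗ[K] V, ∃ E : Submodule K V,
      Module.rank K E = Module.rank K V ∧
      ∀ (a : A) (f : ℕ →₀ A) (x : E), (a : V) + P f + x = 0 → a = 0 ∧ f = 0 ∧ x = 0 := by
  obtain ⟨A, hA, C, hC, hrC⟩ : ∃ A ∈ F, ∃ C : Submodule K V, C ⊓ A = ⊥ ∧
      Module.rank K C = Module.rank K V := by
    obtain ⟨B, C, -, -, hBC, hrB, hrC⟩ := exists_split (⊤ : Submodule K V) (by
      rw [rank_top]
      exact hV)
    rw [rank_top] at hrB hrC
    by_cases hB : B ∈ F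
    · exact ⟨B, hB, C, by rw [inf_comm]; exact hBC, hrC⟩
    · obtain ⟨W, hW, hWB⟩ := hF.exists_disjoint hB
      exact ⟨W, hW, B, by rw [inf_comm]; exact hWB, hrB⟩
  obtain ⟨D, hD⟩ := A.exists_isCompl
  have hrD := rank_compl hC hrC hD
  have h1 : Module.rank K D = Module.rank K ((ℕ →₀ A) × D) := by
    have h2 : Module.rank K (ℕ →₀ A) ≤ Module.rank K V := by
      rw [rank_finsupp, Cardinal.mk_nat, Cardinal.lift_aleph0, Cardinal.lift_id'.{0, v}]
      exact Cardinal.mul_le_of_le hV hV (Submodule.rank_le A)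
    rw [rank_prod', hrD, Cardinal.add_eq_right hV h2]
  obtain ⟨e⟩ := nonempty_linearEquiv_of_rank_eq h1
  have hi : Function.Injective (D.subtype ∘ₗ e.symm.toLinearMap ∘ₗ LinearMap.inr K (ℕ →₀ A) D) :=
    D.subtype_injective.comp (e.symm.injective.comp LinearMap.inr_injective)
  refine ⟨A, hA, D.subtype ∘ₗ e.symm.toLinearMap ∘ₗ LinearMap.inl K (ℕ →₀ A) D,
    LinearMap.range (D.subtype ∘ₗ e.symm.toLinearMap ∘ₗ LinearMap.inr K (ℕ →₀ A) D), ?_, ?_⟩
  · rw [← (LinearEquiv.ofInjective _ hi).rank_eq, hrD]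
  · rintro a f ⟨_, ⟨d, rfl⟩⟩ h
    have h2 : (a : V) + (e.symm (f, d) : V) = 0 := by
      have h3 : (e.symm (f, d) : V) = (e.symm (f, 0) : V) + (e.symm (0, d) : V) := by
        rw [← Submodule.coe_add, ← map_add]
        simp
      rw [h3, ← add_assoc]
      exact h
    have h4 : (a : V) = 0 := by
      have h5 : (a : V) ∈ A ⊓ D := by
        refine ⟨a.2, ?_⟩
        rw [eq_neg_of_add_eq_zero_left h2]
        exact D.neg_mem (e.symm (f, d)).2
      rw [hD.inf_eq_bot] at h5
      exact (Submodule.mem_bot K).1 h5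
    rw [h4, zero_add] at h2
    have h6 : e.symm (f, d) = 0 := Subtype.ext h2
    rw [LinearEquiv.map_eq_zero_iff, Prod.mk_eq_zero] at h6
    obtain ⟨hf, hd⟩ := h6
    refine ⟨Subtype.ext h4, hf, ?_⟩
    subst hd
    apply Subtype.ext
    simp

theorem ne_of_disjoint {F F' : Set (Submodule K V)} (hF : IsFilter F) {U W : Submodule K V}
    (hU : U ∈ F) (hW : W ∈ F') (h : U ⊓ W = ⊥) : F ≠ F' := by
  rintro rfl
  apply hF.bot_notMem
  rw [← h]
  exact hF.inf _ _ hU hW

/-- The translates of a maximal filter by suitable `g 0, g 1, ...` and `h`. -/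
theorem exists_family {F : Set (Submodule K V)} (hF : IsMaxFilter F)
    (hV : ℵ₀ ≤ Module.rank K V) : ∃ A ∈ F, ∃ (g : ℕ → (V ≃ₗ[K] V)) (h : V ≃ₗ[K] V),
      (∀ a b c : A, (a : V) + g 0 b + g 1 c = 0 → a = 0 ∧ b = 0 ∧ c = 0) ∧
      (∀ m n : ℕ, m ≠ n → ∀ a b : A, g m a = g n b → a = 0) ∧
      (∀ a b : A, (a : V) = h b → a = 0) ∧ (∀ a b : A, g 0 a = h b → a = 0) ∧
      ∀ a : A, h a = a + g 0 a := by
  obtain ⟨A, hA, P, E, hrE, hP⟩ := exists_copies hF hV
  have hPi : Function.Injective P := by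
    rw [← LinearMap.ker_eq_bot, LinearMap.ker_eq_bot']
    intro f hf
    exact (hP 0 f 0 (by simp [hf])).2.1
  have hsub : E ⊓ LinearMap.range A.subtype = ⊥ := by
    rw [Submodule.eq_bot_iff]
    rintro x ⟨hx, ⟨a, rfl⟩⟩
    have h1 := hP (-a) 0 ⟨_, hx⟩ (by simp)
    have h2 : a = 0 := neg_eq_zero.1 h1.1
    rw [h2]
    simp
  have hg : ∀ n : ℕ, ∃ g : V ≃ₗ[K] V, ∀ a : A, g (A.subtype a) = (P ∘ₗ Finsupp.lsingle n) a := by
    intro n
    refine exists_extend A.subtype_injective (hPi.comp (Finsupp.single_injective n)) hsub hrE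
      ?_ hrE
    rw [Submodule.eq_bot_iff]
    rintro x ⟨hx, ⟨a, rfl⟩⟩
    have h1 := hP 0 (Finsupp.single n (-a)) ⟨_, hx⟩ (by simp)
    have h2 := h1.2.1
    rw [Finsupp.single_eq_zero, neg_eq_zero] at h2
    rw [h2]
    simp
  obtain ⟨h, hh⟩ : ∃ h : V ≃ₗ[K] V, ∀ a : A, h (A.subtype a) =
      (A.subtype + P ∘ₗ Finsupp.lsingle 0) a := by
    refine exists_extend A.subtype_injective ?_ hsub hrE ?_ hrE
    · rw [← LinearMap.ker_eq_bot, LinearMap.ker_eq_bot']
      intro a ha
      exact (hP a (Finsupp.single 0 a) 0 (by simpa using ha)).1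
    · rw [Submodule.eq_bot_iff]
      rintro x ⟨hx, ⟨a, rfl⟩⟩
      have h1 := hP (-a) (Finsupp.single 0 (-a)) ⟨_, hx⟩ (by
        simp
        abel)
      have h2 : a = 0 := neg_eq_zero.1 h1.1
      rw [h2]
      simp
  choose g hg using hg
  have hg' : ∀ (n : ℕ) (a : A), g n (a : V) = P (Finsupp.single n a) := fun n a => hg n a
  have hh' : ∀ a : A, h (a : V) = a + P (Finsupp.single 0 a) := fun a => hh a
  refine ⟨A, hA, g, h, ?_, ?_, ?_, ?_, ?_⟩
  · intro a b c habc
    rw [hg', hg'] at habc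
    have h1 := hP a (Finsupp.single 0 b + Finsupp.single 1 c) 0 (by
      rw [map_add]
      simpa [add_assoc] using habc)
    have h2 := DFunLike.congr_fun h1.2.1 0
    have h3 := DFunLike.congr_fun h1.2.1 1
    simp at h2 h3
    exact ⟨h1.1, h2, h3⟩
  · intro m n hmn a b hab
    rw [hg', hg'] at hab
    have h1 := DFunLike.congr_fun (hPi hab) m
    rw [Finsupp.single_eq_same, Finsupp.single_eq_of_ne hmn] at h1
    exact h1
  · intro a b hab
    rw [hh'] at hab
    have h1 := hP (b - a) (Finsupp.single 0 b) 0 (by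
      simp [hab])
    have h2 := h1.2.1
    rw [Finsupp.single_eq_zero] at h2
    have h3 := h1.1
    rw [h2, zero_sub, neg_eq_zero] at h3
    exact h3
  · intro a b hab
    rw [hh', hg'] at hab
    have h1 := hP b (Finsupp.single 0 b - Finsupp.single 0 a) 0 (by
      simp [hab])
    have h2 := h1.2.1
    rw [h1.1] at h2
    simpa using h2
  · intro a
    rw [hh', hg']

theorem not_three_transitive {F : Set (Submodule K V)} (hF : IsMaxFilter F)
    (hV : ℵ₀ ≤ Module.rank K V) : ¬ IsKTransitive F 3 := by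
  obtain ⟨A, hA, g, h, h1, h2, h3, h4, h5⟩ := exists_family hF hV
  intro htr
  have hmem : ∀ k : V ≃ₗ[K] V, A.map (k : V →ₗ[K] V) ∈ translate F k := fun k => map_mem hA
  have e1 : F ≠ translate F (g 0) := by
    refine ne_of_disjoint hF.1 hA (hmem (g 0)) ?_
    rw [Submodule.eq_bot_iff]
    rintro x ⟨hx, ⟨b, hb, hbx⟩⟩
    have := h1 ⟨x, hx⟩ (-⟨b, hb⟩) 0 (by
      have : g 0 b = x := hbx
      simp [this])
    exact congrArg Subtype.val this.1
  have e2 : F ≠ translate F (g 1) := by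
    refine ne_of_disjoint hF.1 hA (hmem (g 1)) ?_
    rw [Submodule.eq_bot_iff]
    rintro x ⟨hx, ⟨b, hb, hbx⟩⟩
    have := h1 ⟨x, hx⟩ 0 (-⟨b, hb⟩) (by
      have : g 1 b = x := hbx
      simp [this])
    exact congrArg Subtype.val this.1
  have e3 : translate F (g 0) ≠ translate F (g 1) := by
    refine ne_of_disjoint (hF.translate _).1 (hmem (g 0)) (hmem (g 1)) ?_
    rw [Submodule.eq_bot_iff]
    rintro x ⟨⟨a, ha, hax⟩, ⟨b, hb, hbx⟩⟩
    have := h2 0 1 (by norm_num) ⟨a, ha⟩ ⟨b, hb⟩ (hax.trans hbx.symm)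
    have ha0 : a = 0 := congrArg Subtype.val this
    rw [← hax, ha0]
    simp
  have e4 : F ≠ translate F h := by
    refine ne_of_disjoint hF.1 hA (hmem h) ?_
    rw [Submodule.eq_bot_iff]
    rintro x ⟨hx, ⟨b, hb, hbx⟩⟩
    have := h3 ⟨x, hx⟩ ⟨b, hb⟩ hbx.symm
    exact congrArg Subtype.val this
  have e5 : translate F (g 0) ≠ translate F h := by
    refine ne_of_disjoint (hF.translate _).1 (hmem (g 0)) (hmem h) ?_
    rw [Submodule.eq_bot_iff]
    rintro x ⟨⟨a, ha, hax⟩, ⟨b, hb, hbx⟩⟩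
    have := h4 ⟨a, ha⟩ ⟨b, hb⟩ (hax.trans hbx.symm)
    have ha0 : a = 0 := congrArg Subtype.val this
    rw [← hax, ha0]
    simp
  have hFo : F ∈ orbit F := ⟨LinearEquiv.refl K V, (translate_refl F).symm⟩
  obtain ⟨k, hk⟩ := htr ![F, translate F (g 0), translate F (g 1)]
    ![F, translate F (g 0), translate F h] (by
      intro i
      fin_cases i
      · exact hFo
      · exact ⟨_, rfl⟩
      · exact ⟨_, rfl⟩) (by
      intro i
      fin_cases i
      · exact hFo
      · exact ⟨_, rfl⟩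
      · exact ⟨_, rfl⟩) (by
      intro i j hij
      fin_cases i <;> fin_cases j <;> simp at hij ⊢
      · exact e1 hij
      · exact e2 hij
      · exact e1 hij.symm
      · exact e3 hij
      · exact e2 hij.symm
      · exact e3 hij.symm) (by
      intro i j hij
      fin_cases i <;> fin_cases j <;> simp at hij ⊢
      · exact e1 hij
      · exact e4 hij
      · exact e1 hij.symm
      · exact e5 hij
      · exact e4 hij.symm
      · exact e5 hij.symm)
  have k0 : translate F k = F := hk 0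
  have k1 : translate (translate F (g 0)) k = translate F (g 0) := hk 1
  have k2 : translate (translate F (g 1)) k = translate F h := hk 2
  -- the three members `A k`, `A g₀ k`, `A g₁ k`
  have m0 : A.map (k : V →ₗ[K] V) ∈ F := by
    rw [← k0]
    exact map_mem hA
  have m1 : (A.map (g 0 : V →ₗ[K] V)).map (k : V →ₗ[K] V) ∈ translate F (g 0) := by
    rw [← k1]
    exact map_mem (map_mem hA)
  have m2 : (A.map (g 1 : V →ₗ[K] V)).map (k : V →ₗ[K] V) ∈ translate F h := by
    rw [← k2]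
    exact map_mem (map_mem hA)
  obtain ⟨U, hU, hU'⟩ := m1
  obtain ⟨W, hW, hW'⟩ := m2
  have hall := hF.1.inf _ _ (hF.1.inf _ _ m0 hA) (hF.1.inf _ _ hU hW)
  have hne : A.map (k : V →ₗ[K] V) ⊓ A ⊓ (U ⊓ W) ≠ ⊥ := fun h0 => hF.1.bot_notMem (h0 ▸ hall)
  obtain ⟨u, hu, hu0⟩ := Submodule.exists_mem_ne_zero_of_ne_bot hne
  obtain ⟨⟨⟨a, ha, hau⟩, huA⟩, huU, huW⟩ := hu
  have q1 : g 0 u ∈ (A.map (g 0 : V →ₗ[K] V)).map (k : V →ₗ[K] V) := by
    rw [hU']
    exact ⟨u, huU, rfl⟩
  have q2 : h u ∈ (A.map (g 1 : V →ₗ[K] V)).map (k : V →ₗ[K] V) := by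
    rw [hW']
    exact ⟨u, huW, rfl⟩
  obtain ⟨_, ⟨b, hb, rfl⟩, hb'⟩ := q1
  obtain ⟨_, ⟨c, hc, rfl⟩, hc'⟩ := q2
  have hau' : k a = u := hau
  have hb'' : k (g 0 b) = g 0 u := hb'
  have hc'' : k (g 1 c) = h u := hc'
  have r1 : h u = u + g 0 u := h5 ⟨u, huA⟩
  have r2 : a + g 0 b + g 1 (-c) = 0 := by
    apply k.injective
    rw [map_add, map_add, map_neg, map_neg, hau', hb'', hc'', r1]
    simp
  have r3 := (h1 ⟨a, ha⟩ ⟨b, hb⟩ (-⟨c, hc⟩) r2).1
  have r4 : a = 0 := congrArg Subtype.val r3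
  apply hu0
  rw [← hau', r4]
  simp

theorem orbit_infinite {F : Set (Submodule K V)} (hF : IsMaxFilter F)
    (hV : ℵ₀ ≤ Module.rank K V) : (orbit F).Infinite := by
  obtain ⟨A, hA, g, h, h1, h2, h3, h4, h5⟩ := exists_family hF hV
  refine Set.infinite_of_injective_forall_mem (f := fun n => translate F (g n)) ?_
    (fun n => ⟨g n, rfl⟩)
  intro m n hmn
  by_contra hne
  refine ne_of_disjoint (hF.translate _).1 (map_mem hA) (map_mem hA) ?_ hmn
  rw [Submodule.eq_bot_iff]
  rintro x ⟨⟨a, ha, hax⟩, ⟨b, hb, hbx⟩⟩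
  have := h2 m n hne ⟨a, ha⟩ ⟨b, hb⟩ (hax.trans hbx.symm)
  have ha0 : a = 0 := congrArg Subtype.val this
  rw [← hax, ha0]
  simp

theorem IsKTransitive.pred {F : Set (Submodule K V)} (hinf : (orbit F).Infinite) {k : ℕ}
    (h : IsKTransitive F (k + 1)) : IsKTransitive F k := by
  intro x y hx hy hxi hyi
  obtain ⟨x', hx', hxx'⟩ := (hinf.sdiff (Set.finite_range x)).nonempty
  obtain ⟨y', hy', hyy'⟩ := (hinf.sdiff (Set.finite_range y)).nonempty
  obtain ⟨g, hg⟩ := h (Fin.cons x' x) (Fin.cons y' y) (by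
      intro i
      refine Fin.cases ?_ ?_ i
      · exact hx'
      · intro i
        exact hx i) (by
      intro i
      refine Fin.cases ?_ ?_ i
      · exact hy'
      · intro i
        exact hy i) (Fin.cons_injective_iff.2 ⟨hxx', hxi⟩) (Fin.cons_injective_iff.2 ⟨hyy', hyi⟩)
  exact ⟨g, fun i => hg i.succ⟩

/-- Let `V` be an infinite-dimensional vector space over a field `K` and `F` a maximal filter on
the set of subspaces of `V`. Then `GL(V)` acts `k`-transitively on the set of all translates of `F`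
if and only if `k ≤ 2`. -/
theorem result (hV : ℵ₀ ≤ Module.rank K V) (F : Set (Submodule K V)) (hF : IsMaxFilter F)
    (k : ℕ) : IsKTransitive F k ↔ k ≤ 2 := by
  have hinf := orbit_infinite hF hV
  constructor
  · intro h
    by_contra hk
    have hk' : 3 ≤ k := by omega
    have : ∀ m : ℕ, IsKTransitive F (3 + m) → IsKTransitive F 3 := by
      intro m
      induction m with
      | zero => exact id
      | succ m ih => exact fun h' => ih (IsKTransitive.pred hinf h')
    obtain ⟨m, rfl⟩ := Nat.exists_eq_add_of_le hk'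
    exact not_three_transitive hF hV (this m h)
  · intro h
    have h2 := two_transitive hF hV
    interval_cases k
    · exact (h2.pred hinf).pred hinf
    · exact h2.pred hinf
    · exact h2

end Pool.Agent.Results.MP_5cf805_al.DegreeTwo
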